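import Pool.Agent.H515R2.PP.Sound
import Pool.Agent.H622R2.Base
import Pool.Agent.H671R2.PolyAuto
import Pool.Agent.H692R2.Col
import Pool.Agent.H692R2.FinGraph

/-!
# The reduction graph as an adjacency matrix
-/

namespace Pool.Agent.H515R2.PP

open Pool.Agent.NPC Pool.Agent.H622R2 Pool.Agent.H692R2

/-- Labels of main vertices. -/
abbrev Lab := ℕ × ℕ × ℕ

/-- Labels: a main vertex `a` is `(a, a)`, a dotted edge from `a` to `b` is `(a, b)`. -/
abbrev Lam := Lab × Lab

/-- The vertices of the input graph. -/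
def vl (E : List (ℕ × ℕ)) : List ℕ := ddup (E.flatMap (fun e => [e.1, e.2]))

/-- The end number `r % 2` of the edge number `r / 2`. -/
def endp (E : List (ℕ × ℕ)) (r : ℕ) : ℕ :=
  if r % 2 = 0 then (E.getD (r / 2) (0, 0)).1 else (E.getD (r / 2) (0, 0)).2

/-- The main vertices (labels). -/
def mainL (E : List (ℕ × ℕ)) : List Lab :=
  (List.range 7).map (fun k => (0, k, 0)) ++
  ((vl E).flatMap (fun u => [(1, u, 0), (1, u, 1), (1, u, 2), (2, u, 0), (2, u, 1), (2, u, 2),
    (3, u, 0), (3, u, 1)]) ++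
  (List.range (2 * E.length)).flatMap (fun r => (List.range 3).flatMap (fun i =>
    [(4, r, i), (5, r, i)])))

/-- The dotted edges (labels). -/
def dotL (E : List (ℕ × ℕ)) : List Lam :=
  (vl E).flatMap (fun u => [((0, 3, 0), (1, u, 0)), ((1, u, 0), (3, u, 0)),
    ((1, u, 1), (3, u, 1)), ((3, u, 0), (1, u, 1)), ((3, u, 1), (1, u, 2)),
    ((1, u, 2), (0, 4, 0)), ((0, 3, 0), (3, u, 0)), ((0, 3, 0), (3, u, 1)),
    ((3, u, 0), (0, 4, 0)), ((3, u, 1), (0, 4, 0)), ((0, 3, 0), (2, u, 0)),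
    ((0, 3, 0), (2, u, 1)), ((0, 3, 0), (2, u, 2))]) ++
  (List.range (2 * E.length)).flatMap (fun r => (List.range 3).flatMap (fun i =>
    [((2, endp E r, i), (4, r, i)), ((4, r, i), (5, r, i)), ((5, r, i), (0, 4, 0)),
      ((0, 3, 0), (4, r, i)), ((4, r, i), (0, 4, 0))]))

/-- All vertices (labels). -/
def vs (E : List (ℕ × ℕ)) : List Lam := ddup ((mainL E).map (fun a => (a, a)) ++ dotL E)

/-- Solid adjacency of labels. -/
def solB (a b : Lab) : Bool :=
  (decide (a.1 = 0) && decide (b.1 = 0) && decide ((a.2.1, b.2.1) ∈ baseE)) ||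
  (decide (a.1 = 1) && decide (b.1 = 2) && decide (a.2 = b.2)) ||
  (decide (a.1 = 5) && decide (b.1 = 5) && decide (a.2.1 % 2 = 0) &&
    decide (b.2.1 = a.2.1 + 1) && decide (a.2.2 = b.2.2))

/-- Adjacency of labels. -/
def adjB (p q : Lam) : Bool :=
  bif decide (p.1 = p.2) then
    (bif decide (q.1 = q.2) then (solB p.1 q.1 || solB q.1 p.1)
      else (decide (p.1 = q.1) || decide (p.1 = q.2)))
  else
    (bif decide (q.1 = q.2) then (decide (q.1 = p.1) || decide (q.1 = p.2)) else false)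

theorem poly_vl {α : Type} [TEnc α] {E : α → List (ℕ × ℕ)} (hE : Poly E) :
    Poly (fun a => vl (E a)) := by
  unfold vl
  exact ddup_poly (by fun_prop)

theorem poly_endp {α : Type} [TEnc α] {E : α → List (ℕ × ℕ)} {r : α → ℕ} (hE : Poly E)
    (hr : Poly r) : Poly (fun a => endp (E a) (r a)) := by
  unfold endp
  fun_prop

theorem poly_solB {α : Type} [TEnc α] {a b : α → Lab} (ha : Poly a) (hb : Poly b) :
    Poly (fun x => solB (a x) (b x)) := by
  unfold solB
  fun_prop

theorem poly_adjB {α : Type} [TEnc α] {a b : α → Lam} (ha : Poly a) (hb : Poly b) :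
    Poly (fun x => adjB (a x) (b x)) := by
  unfold adjB
  have h1 : Poly (fun x => solB (a x).1 (b x).1) := poly_solB (by fun_prop) (by fun_prop)
  have h2 : Poly (fun x => solB (b x).1 (a x).1) := poly_solB (by fun_prop) (by fun_prop)
  fun_prop

theorem poly_range2 {α : Type} [TEnc α] {E : α → List (ℕ × ℕ)} (hE : Poly E) :
    Poly (fun a => List.range (2 * (E a).length)) :=
  UPoly.range (UPoly.mul (UPoly.const 2) (UPoly.length hE))

theorem poly_mainL {α : Type} [TEnc α] {E : α → List (ℕ × ℕ)} (hE : Poly E) :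
    Poly (fun a => mainL (E a)) := by
  unfold mainL
  have h1 := poly_vl hE
  have h2 := poly_range2 hE
  fun_prop

theorem poly_dotL {α : Type} [TEnc α] {E : α → List (ℕ × ℕ)} (hE : Poly E) :
    Poly (fun a => dotL (E a)) := by
  unfold dotL
  have h1 := poly_vl hE
  have h2 := poly_range2 hE
  have h3 : Poly (fun p : (α × ℕ) × ℕ => endp (E p.1.1) p.1.2) :=
    poly_endp (by fun_prop) (by fun_prop)
  fun_prop

theorem poly_vs {α : Type} [TEnc α] {E : α → List (ℕ × ℕ)} (hE : Poly E) :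
    Poly (fun a => vs (E a)) := by
  unfold vs
  have h1 := poly_mainL hE
  have h2 := poly_dotL hE
  exact ddup_poly (by fun_prop)

end Pool.Agent.H515R2.PP
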