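import Pool.Agent.H515R2.PP.Defs

/-!
# Two criteria: a sufficient condition for perfection, and odd holes
-/

namespace Pool.Agent.H515R2.PP

section Suff

variable {V : Type*}

theorem chi_eq_omega_two [Finite V] (G : SimpleGraph V) (h : G.Colorable 2) :
    G.chromaticNumber = (G.cliqueNum : ℕ∞) := by
  classical
  apply le_antisymm _ G.cliqueNum_le_chromaticNumber
  by_cases he : ∃ a b, G.Adj a b
  · obtain ⟨a, b, hab⟩ := he
    have h1 : G.IsNClique 2 {a, b} := by
      refine ⟨?_, Finset.card_pair hab.ne⟩
      rw [SimpleGraph.isClique_iff]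
      intro p hp q hq hpq
      simp only [Finset.coe_insert, Finset.coe_singleton, Set.mem_insert_iff,
        Set.mem_singleton_iff] at hp hq
      rcases hp with rfl | rfl <;> rcases hq with rfl | rfl
      · exact absurd rfl hpq
      · exact hab
      · exact hab.symm
      · exact absurd rfl hpq
    have h2 : 2 ≤ G.cliqueNum := by
      have := h1.isClique.card_le_cliqueNum
      rwa [h1.card_eq] at this
    calc G.chromaticNumber ≤ (2 : ℕ) := h.chromaticNumber_le
      _ ≤ (G.cliqueNum : ℕ∞) := by exact_mod_cast h2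
  · push Not at he
    by_cases hne : Nonempty V
    · obtain ⟨a⟩ := hne
      have h1 : G.IsNClique 1 {a} := by
        refine ⟨?_, by simp⟩
        simp
      have h2 : 1 ≤ G.cliqueNum := by
        have := h1.isClique.card_le_cliqueNum
        rwa [h1.card_eq] at this
      have h3 : G.Colorable 1 := ⟨SimpleGraph.Coloring.mk (fun _ => 0) (fun {p q} hpq =>
        absurd hpq (he p q))⟩
      calc G.chromaticNumber ≤ (1 : ℕ) := h3.chromaticNumber_le
        _ ≤ (G.cliqueNum : ℕ∞) := by exact_mod_cast h2
    · rw [not_nonempty_iff] at hne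
      have h3 : G.Colorable 0 := ⟨SimpleGraph.Coloring.mk (fun v => (hne.false v).elim)
        (fun {p q} hpq => absurd hpq (he p q))⟩
      calc G.chromaticNumber ≤ (0 : ℕ) := h3.chromaticNumber_le
        _ ≤ (G.cliqueNum : ℕ∞) := by simp

/-- The structure used for sufficiency: a graph that is two-coloured outside an independent set
`A` of vertices, such that neighbours of different colours of a vertex of `A` are adjacent. -/
structure Apex (G : SimpleGraph V) (A : Set V) (c : V → Bool) : Prop where
  indep : ∀ u ∈ A, ∀ v ∈ A, ¬ G.Adj u v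
  col : ∀ u v, u ∉ A → v ∉ A → G.Adj u v → c u ≠ c v
  nb : ∀ p ∈ A, ∀ s t, G.Adj p s → G.Adj p t → c s ≠ c t → G.Adj s t

theorem Apex.chi [Finite V] {G : SimpleGraph V} {A : Set V} {c : V → Bool} (h : Apex G A c) :
    G.chromaticNumber = (G.cliqueNum : ℕ∞) := by
  classical
  by_cases ht : ∃ p ∈ A, ∃ s t, G.Adj p s ∧ G.Adj p t ∧ c s ≠ c t
  · obtain ⟨p, hp, s, t, hs, ht, hc⟩ := ht
    have hst := h.nb p hp s t hs ht hc
    apply le_antisymm _ G.cliqueNum_le_chromaticNumber
    have h1 : G.IsNClique 3 {p, s, t} := SimpleGraph.is3Clique_triple_iff.2 ⟨hs, ht, hst⟩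
    have h2 : 3 ≤ G.cliqueNum := by
      have := h1.isClique.card_le_cliqueNum
      rwa [h1.card_eq] at this
    have h3 : G.Colorable 3 := by
      refine ⟨SimpleGraph.Coloring.mk (fun v => if v ∈ A then (2 : Fin 3) else
        if c v = true then 0 else 1) ?_⟩
      intro u v huv
      by_cases hu : u ∈ A <;> by_cases hv : v ∈ A
      · exact absurd huv (h.indep u hu v hv)
      · rw [if_pos hu, if_neg hv]
        split_ifs <;> decide
      · rw [if_neg hu, if_pos hv]
        split_ifs <;> decide
      · have := h.col u v hu hv huv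
        rw [if_neg hu, if_neg hv]
        cases h1 : c u <;> cases h2 : c v <;> simp_all
    calc G.chromaticNumber ≤ (3 : ℕ) := h3.chromaticNumber_le
      _ ≤ (G.cliqueNum : ℕ∞) := by exact_mod_cast h2
  · push Not at ht
    apply chi_eq_omega_two
    refine ⟨SimpleGraph.Coloring.mk (fun v => if v ∈ A then
      (if ∃ s, G.Adj v s ∧ c s = true then (1 : Fin 2) else 0) else
        if c v = true then 0 else 1) ?_⟩
    have key : ∀ u v, u ∈ A → v ∉ A → G.Adj u v →
        (if ∃ s, G.Adj u s ∧ c s = true then (1 : Fin 2) else 0) ≠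
          (if c v = true then 0 else 1) := by
      intro u v hu hv huv
      cases hcv : c v
      · rw [if_neg, if_neg (by simp)]
        · decide
        · rintro ⟨s, hs, hs'⟩
          have := ht u hu s v hs huv
          rw [hs', hcv] at this
          exact absurd this (by decide)
      · rw [if_pos ⟨v, huv, hcv⟩, if_pos rfl]
        decide
    intro u v huv
    by_cases hu : u ∈ A <;> by_cases hv : v ∈ A
    · exact absurd huv (h.indep u hu v hv)
    · rw [if_pos hu, if_neg hv]
      exact key u v hu hv huv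
    · rw [if_neg hu, if_pos hv]
      exact (key v u hv hu huv.symm).symm
    · have := h.col u v hu hv huv
      rw [if_neg hu, if_neg hv]
      cases h1 : c u <;> cases h2 : c v <;> simp_all

theorem Apex.perfect [Finite V] {G : SimpleGraph V} {A : Set V} {c : V → Bool}
    (h : Apex G A c) : Perfect G := by
  intro s
  refine Apex.chi (A := (fun x : s => (x : V)) ⁻¹' A) (c := fun x => c x) ⟨?_, ?_, ?_⟩
  · intro u hu v hv huv
    exact h.indep u hu v hv huv
  · intro u v hu hv huv
    exact h.col u v hu hv huv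
  · intro p hp u v hu hv huv
    exact h.nb p hp u v hu hv huv

/-- Sufficient condition for a valid partition. -/
theorem valid_of [Finite V] (G : SimpleGraph V) (N A : Set V) (c : V → Bool)
    (hN : ∀ u ∈ N, ∀ v ∈ N, ¬ G.Adj u v) (hNA : ∀ u ∈ N, u ∉ A)
    (hA : ∀ u ∈ A, ∀ v ∈ A, ¬ G.Adj u v)
    (hc : ∀ u v, u ∉ A → v ∉ A → G.Adj u v → c u ≠ c v)
    (hnb : ∀ p ∈ A, ∀ s t, G.Adj p s → G.Adj p t → c s ≠ c t → G.Adj s t ∨ (s ∈ N ∧ t ∈ N)) :
    ValidPartition G N := by
  refine ⟨hN, ⟨fun u v => G.Adj u v ∨ (u ∈ N ∧ v ∈ N ∧ c u ≠ c v), ⟨?_⟩, ⟨?_⟩⟩, ?_, ?_, ?_⟩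
  · rintro u v (h | ⟨h1, h2, h3⟩)
    · exact Or.inl h.symm
    · exact Or.inr ⟨h2, h1, h3.symm⟩
  · rintro u (h | ⟨_, _, h⟩)
    · exact G.loopless.irrefl _ h
    · exact h rfl
  · intro u v h
    exact Or.inl h
  · rintro u v (h | ⟨h1, h2, _⟩)
    · exact Or.inl h
    · exact Or.inr ⟨h1, h2⟩
  · refine Apex.perfect (A := A) (c := c) ⟨?_, ?_, ?_⟩
    · rintro u hu v hv (h | ⟨h1, _, _⟩)
      · exact hA u hu v hv h
      · exact hNA u h1 hu
    · rintro u v hu hv (h | ⟨_, _, h⟩)
      · exact hc u v hu hv h
      · exact h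
    · intro p hp s t hs ht hst
      have h1 : ∀ s, (G.Adj p s ∨ (p ∈ N ∧ s ∈ N ∧ c p ≠ c s)) → G.Adj p s := by
        rintro s (h | ⟨h, _, _⟩)
        · exact h
        · exact absurd hp (hNA p h)
      rcases hnb p hp s t (h1 s hs) (h1 t ht) hst with h | ⟨h2, h3⟩
      · exact Or.inl h
      · exact Or.inr ⟨h2, h3, hst⟩

end Suff

section Holes

variable {V : Type*}

/-- A perfect graph has no odd hole (`m ≥ 5` odd). -/
theorem no_odd_hole (G : SimpleGraph V) (hG : Perfect G) (m : ℕ) (hm : 5 ≤ m) (hodd : m % 2 = 1)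
    (v : ℕ → V)
    (hadj : ∀ i j, i < j → j < m → (G.Adj (v i) (v j) ↔ (j = i + 1 ∨ (i = 0 ∧ j = m - 1)))) :
    False := by
  classical
  set s : Set V := {x | ∃ i < m, v i = x} with hs
  have hfin : Finite s := by
    have : s = v '' Set.Iio m := by
      ext x
      simp [hs]
    rw [this]
    exact ((Set.finite_Iio m).image v).to_subtype
  have h1 := hG s
  -- the clique number is at most two
  have h2 : (G.induce s).cliqueNum ≤ 2 := by
    by_contra hcon
    push Not at hcon
    obtain ⟨t, ht⟩ := (G.induce s).exists_isNClique_cliqueNum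
    have h3 : 2 < t.card := by rw [ht.card_eq]; exact hcon
    obtain ⟨a, b, c, ha, hb, hc, hab, hac, hbc⟩ := Finset.two_lt_card_iff.1 h3
    have hcl := ht.isClique
    have e1 : G.Adj a b := hcl ha hb hab
    have e2 : G.Adj a c := hcl ha hc hac
    have e3 : G.Adj b c := hcl hb hc hbc
    obtain ⟨i, hi, hi'⟩ := a.2
    obtain ⟨j, hj, hj'⟩ := b.2
    obtain ⟨k, hk, hk'⟩ := c.2
    rw [← hi', ← hj'] at e1
    rw [← hi', ← hk'] at e2
    rw [← hj', ← hk'] at e3
    have key : ∀ i j, i < m → j < m → G.Adj (v i) (v j) →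
        (j = i + 1 ∨ i = j + 1 ∨ (i = 0 ∧ j = m - 1) ∨ (j = 0 ∧ i = m - 1)) := by
      intro i j hi hj h
      rcases lt_trichotomy i j with hij | hij | hij
      · rcases (hadj i j hij hj).1 h with h | h
        · exact Or.inl h
        · exact Or.inr (Or.inr (Or.inl h))
      · subst hij
        exact absurd h (G.loopless.irrefl _)
      · rcases (hadj j i hij hi).1 h.symm with h | h
        · exact Or.inr (Or.inl h)
        · exact Or.inr (Or.inr (Or.inr h))
    have k1 := key i j hi hj e1
    have k2 := key i k hi hk e2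
    have k3 := key j k hj hk e3
    omega
  have h3 : (G.induce s).Colorable 2 := by
    rw [← SimpleGraph.chromaticNumber_le_iff_colorable, h1]
    exact_mod_cast h2
  obtain ⟨C⟩ := h3
  have hmem : ∀ i, i < m → v i ∈ s := fun i hi => ⟨i, hi, rfl⟩
  have hne : ∀ i (hi : i < m) j (hj : j < m), G.Adj (v i) (v j) →
      C ⟨v i, hmem i hi⟩ ≠ C ⟨v j, hmem j hj⟩ := by
    intro i hi j hj h
    exact C.valid (v := (⟨v i, hmem i hi⟩ : s)) (w := ⟨v j, hmem j hj⟩) h
  have halt : ∀ i (hi : i < m), C ⟨v i, hmem i hi⟩ =
      (if i % 2 = 0 then C ⟨v 0, hmem 0 (by omega)⟩ else 1 - C ⟨v 0, hmem 0 (by omega)⟩) := by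
    intro i
    induction i with
    | zero => intro hi; simp
    | succ i ih =>
      intro hi
      have h4 := ih (by omega)
      have h5 := hne i (by omega) (i + 1) hi
        ((hadj i (i + 1) (by omega) hi).2 (Or.inl rfl))
      rw [h4] at h5
      generalize C ⟨v 0, hmem 0 (by omega)⟩ = x at h5 ⊢
      generalize C ⟨v (i + 1), hmem (i + 1) hi⟩ = y at h5 ⊢
      rcases Nat.mod_two_eq_zero_or_one i with h6 | h6
      · rw [if_pos h6] at h5
        rw [if_neg (by omega)]
        revert x y
        decide
      · rw [if_neg (by omega)] at h5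
        rw [if_pos (by omega)]
        revert x y
        decide
  have h4 := halt (m - 1) (by omega)
  rw [if_pos (by omega)] at h4
  exact hne 0 (by omega) (m - 1) (by omega)
    ((hadj 0 (m - 1) (by omega) (by omega)).2 (Or.inr ⟨rfl, rfl⟩)) h4.symm

/-- An even path of length `4 k` whose vertices are adjacent only along the path or when both
positions are divisible by four, with adjacent ends, gives an odd hole. -/
theorem path_lemma (G : SimpleGraph V) (hG : Perfect G) (k : ℕ) :
    ∀ (v : ℕ → V), 1 ≤ k → (∀ i j, i ≤ 4 * k → j ≤ 4 * k → v i = v j → i = j) →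
    (∀ i < 4 * k, G.Adj (v i) (v (i + 1))) →
    (∀ i j, i + 1 < j → j ≤ 4 * k → G.Adj (v i) (v j) → i % 4 = 0 ∧ j % 4 = 0) →
    G.Adj (v 0) (v (4 * k)) → False := by
  induction k using Nat.strong_induction_on with
  | _ k ih =>
    intro v hk hinj hstep hno hend
    by_cases hex : ∃ i j, i < j ∧ j ≤ k ∧ (i, j) ≠ (0, k) ∧ G.Adj (v (4 * i)) (v (4 * j))
    · obtain ⟨i, j, hij, hjk, hne, hadj⟩ := hex
      have hlt : j - i < k := by
        rcases Nat.eq_zero_or_pos i with h | h
        · subst h
          have : j ≠ k := fun h => hne (by rw [h])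
          omega
        · omega
      refine ih (j - i) hlt (fun n => v (4 * i + n)) (by omega) ?_ ?_ ?_ ?_
      · intro a b ha hb hab
        have := hinj _ _ (by omega) (by omega) hab
        omega
      · intro a ha
        exact hstep (4 * i + a) (by omega)
      · intro a b hab hb h
        have := hno _ _ (by omega) (by omega) h
        omega
      · have e : 4 * i + 4 * (j - i) = 4 * j := by omega
        simpa [e] using hadj
    · push Not at hex
      refine no_odd_hole G hG (4 * k + 1) (by omega) (by omega) v ?_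
      intro i j hij hj
      constructor
      · intro h
        by_cases h1 : j = i + 1
        · exact Or.inl h1
        · obtain ⟨h2, h3⟩ := hno i j (by omega) (by omega) h
          by_contra hcon
          push Not at hcon
          have e1 : 4 * (i / 4) = i := by omega
          have e2 : 4 * (j / 4) = j := by omega
          refine hex (i / 4) (j / 4) (by omega) (by omega) ?_ (by rw [e1, e2]; exact h)
          intro hh
          rw [Prod.mk.injEq] at hh
          have := hcon.2 (by omega)
          omega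
      · rintro (rfl | ⟨rfl, rfl⟩)
        · exact hstep i (by omega)
        · simpa using hend

end Holes

end Pool.Agent.H515R2.PP
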