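import Pool.Agent.H692R2.FinGraph

/-!
# Definitions: perfect graphs and probe perfect graphs
-/

namespace Pool.Agent.H515R2.PP

open Pool.Agent.NPC in
/-- `L` belongs to the class `P`: it is decided by a polynomial-time computable function. -/
def InClassP (L : Set (List Bool)) : Prop :=
  ∃ V : List Bool → List Bool, PolyTime V ∧ ∀ x, x ∈ L ↔ V x = [true]

/-- `G` is perfect: every induced subgraph has chromatic number equal to its clique number. -/
def Perfect {V : Type*} (G : SimpleGraph V) : Prop :=
  ∀ s : Set V, (G.induce s).chromaticNumber = ((G.induce s).cliqueNum : ℕ∞)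

/-- The partition of the vertex set into the probes `Nᶜ` and the non-probes `N` is valid: `N` is
independent, and edges between vertices of `N` can be added to `G` so that the result is perfect. -/
def ValidPartition {V : Type*} (G : SimpleGraph V) (N : Set V) : Prop :=
  (∀ u ∈ N, ∀ v ∈ N, ¬ G.Adj u v) ∧
    ∃ G' : SimpleGraph V, G ≤ G' ∧ (∀ u v, G'.Adj u v → G.Adj u v ∨ (u ∈ N ∧ v ∈ N)) ∧ Perfect G'

/-- `G` is a probe perfect graph: it has at least one valid partition. -/
def ProbePerfect {V : Type*} (G : SimpleGraph V) : Prop := ∃ N : Set V, ValidPartition G N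

end Pool.Agent.H515R2.PP
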