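import Pool.Agent.H515R2.PP.Main
import Pool.Agent.H642R2.TMSim

/-!
# Hardness of the recognition of probe perfect graphs
-/

namespace Pool.Agent.H515R2.PP

open Pool.Agent.NPC Pool.Agent.H622R2 Pool.Agent.H692R2

theorem outF_correct (E : List (ℕ × ℕ)) : Col 3 E ↔ ProbePerfect (outF E).graph := by
  unfold outF
  dsimp only
  exact out_correct E

theorem hardI_probePerfect : HardI (fun G : FinGraph => ProbePerfect G.graph) := by
  refine (hardPr_col3.toHardI).trans poly_outF ?_
  intro E
  exact outF_correct E

end Pool.Agent.H515R2.PP
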