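import Pool.Agent.H515R2.PP.Core

/-!
# The reduction graph

`VE` is the vertex set and `EE` the edge set of the given graph; `en e b` are the ends of `e`.
The reduction graph has main vertices `M` and, for every dotted edge `d`, a vertex of degree two
joined to the main vertices `src d` and `tgt d`.
-/

namespace Pool.Agent.H515R2.PP

/-- Main vertices. -/
inductive M (VE EE : Type) : Type
  | base (k : Fin 7) : M VE EE
  | x (u : VE) (i : Fin 3) : M VE EE
  | z (u : VE) (i : Fin 3) : M VE EE
  | f (u : VE) (j : Fin 2) : M VE EE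
  | g (e : EE) (b : Bool) (i : Fin 3) : M VE EE
  | y (e : EE) (b : Bool) (i : Fin 3) : M VE EE

/-- Dotted edges. -/
inductive D (VE EE : Type) : Type
  | ax (u : VE) : D VE EE
  | xf (u : VE) (j : Fin 2) : D VE EE
  | fx (u : VE) (j : Fin 2) : D VE EE
  | xb (u : VE) : D VE EE
  | af (u : VE) (j : Fin 2) : D VE EE
  | fb (u : VE) (j : Fin 2) : D VE EE
  | az (u : VE) (i : Fin 3) : D VE EE
  | zg (e : EE) (b : Bool) (i : Fin 3) : D VE EE
  | gy (e : EE) (b : Bool) (i : Fin 3) : D VE EE
  | yb (e : EE) (b : Bool) (i : Fin 3) : D VE EE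
  | ag (e : EE) (b : Bool) (i : Fin 3) : D VE EE
  | gb (e : EE) (b : Bool) (i : Fin 3) : D VE EE

variable {VE EE : Type}

/-- The beginning of a dotted edge. -/
def src (en : EE → Bool → VE) : D VE EE → M VE EE
  | .ax _ => .base 3
  | .xf u j => .x u j.castSucc
  | .fx u j => .f u j
  | .xb u => .x u 2
  | .af _ _ => .base 3
  | .fb u j => .f u j
  | .az _ _ => .base 3
  | .zg e b i => .z (en e b) i
  | .gy e b i => .g e b i
  | .yb e b i => .y e b i
  | .ag _ _ _ => .base 3
  | .gb e b i => .g e b i

/-- The end of a dotted edge. -/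
def tgt : D VE EE → M VE EE
  | .ax u => .x u 0
  | .xf u j => .f u j
  | .fx u j => .x u j.succ
  | .xb _ => .base 4
  | .af u j => .f u j
  | .fb _ _ => .base 4
  | .az u i => .z u i
  | .zg e b i => .g e b i
  | .gy e b i => .y e b i
  | .yb _ _ _ => .base 4
  | .ag e b i => .g e b i
  | .gb _ _ _ => .base 4

/-- The edges of the base gadget. -/
def baseE : List (ℕ × ℕ) :=
  [(0, 3), (0, 4), (1, 4), (1, 5), (1, 6), (2, 3), (2, 5), (2, 6), (3, 6), (4, 5), (5, 6)]

/-- Oriented solid edges. -/
def sol : M VE EE → M VE EE → Prop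
  | .base k, .base l => ((k : ℕ), (l : ℕ)) ∈ baseE
  | .x u i, .z v j => u = v ∧ i = j
  | .y e b i, .y e' b' j => e = e' ∧ b = false ∧ b' = true ∧ i = j
  | _, _ => False

theorem sol_irrefl (a : M VE EE) : ¬ sol a a := by
  cases a with
  | base k =>
    fin_cases k <;> simp [sol, baseE]
  | y e b i =>
    simp only [sol]
    rintro ⟨_, h, h', _⟩
    rw [h] at h'
    exact absurd h' (by decide)
  | _ => simp [sol]

/-- The reduction graph. -/
def gr (en : EE → Bool → VE) : SimpleGraph (M VE EE ⊕ D VE EE) where
  Adj p q := match p, q with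
    | .inl a, .inl b => sol a b ∨ sol b a
    | .inl a, .inr d => a = src en d ∨ a = tgt d
    | .inr d, .inl a => a = src en d ∨ a = tgt d
    | .inr _, .inr _ => False
  symm := ⟨by
    rintro (a | d) (b | d') h
    · exact h.symm
    · exact h
    · exact h
    · exact h⟩
  loopless := ⟨by
    rintro (a | d) h
    · rcases h with h | h <;> exact sol_irrefl a h
    · exact h⟩

variable {en : EE → Bool → VE}

theorem adj_ll (a b : M VE EE) : (gr en).Adj (.inl a) (.inl b) ↔ (sol a b ∨ sol b a) := Iff.rfl
theorem adj_lr (a : M VE EE) (d : D VE EE) :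
    (gr en).Adj (.inl a) (.inr d) ↔ (a = src en d ∨ a = tgt d) := Iff.rfl
theorem adj_rl (a : M VE EE) (d : D VE EE) :
    (gr en).Adj (.inr d) (.inl a) ↔ (a = src en d ∨ a = tgt d) := Iff.rfl
theorem adj_rr (d d' : D VE EE) : ¬ (gr en).Adj (.inr d) (.inr d') := fun h => h

/-! ### Completeness -/

/-- The non-probes given by a colouring. -/
def NN (en : EE → Bool → VE) (col : VE → Fin 3) : M VE EE → Prop
  | .base k => k = 3 ∨ k = 4
  | .x u i => i = col u
  | .z u i => i ≠ col u
  | .f _ _ => True
  | .g _ _ _ => True
  | .y e b i => col (en e b) = i ∨ (col (en e (!b)) ≠ i ∧ b = false)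

/-- The two-colouring. -/
def cc (en : EE → Bool → VE) (col : VE → Fin 3) : M VE EE → Bool
  | .base k => decide (k = 4 ∨ k = 6)
  | .x u i => decide (col u ≤ i)
  | .z u i => decide (i < col u)
  | .f u j => decide (col u ≤ j.castSucc)
  | .g e b i => decide (¬ (col (en e b) = i ∨ (col (en e (!b)) ≠ i ∧ b = false)))
  | .y e b i => decide (¬ (col (en e b) = i ∨ (col (en e (!b)) ≠ i ∧ b = false)))

/-- The main vertices that are apexes. -/
def AM : M VE EE → Prop
  | .base k => k = 0 ∨ k = 1 ∨ k = 2
  | _ => False

theorem NN_not_AM (col : VE → Fin 3) (a : M VE EE) (h : NN en col a) : ¬ AM a := by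
  cases a with
  | base k =>
    simp only [NN] at h
    simp only [AM]
    rcases h with rfl | rfl <;> decide
  | _ => simp [AM]

theorem sol_AM (a b : M VE EE) (ha : AM a) (hb : AM b) : ¬ sol a b := by
  cases a <;> cases b <;> simp only [AM] at ha hb
  rename_i k l
  rcases ha with rfl | rfl | rfl <;> rcases hb with rfl | rfl | rfl <;>
    simp [sol, baseE]

theorem sol_NN (col : VE → Fin 3) (hcol : ∀ e, col (en e false) ≠ col (en e true))
    (a b : M VE EE) (ha : NN en col a) (hb : NN en col b) : ¬ sol a b := by
  cases a <;> cases b <;> simp only [sol, not_false_eq_true]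
  · rename_i k l
    simp only [NN] at ha hb
    rcases ha with rfl | rfl <;> rcases hb with rfl | rfl <;> decide
  · simp only [NN] at ha hb
    rintro ⟨rfl, rfl⟩
    exact hb ha
  · rintro ⟨rfl, rfl, rfl, rfl⟩
    simp only [NN, Bool.not_false, Bool.not_true, Bool.true_eq_false, and_false, or_false,
      and_true] at ha hb
    rcases ha with ha | ha
    · exact hcol _ (ha.trans hb.symm)
    · exact ha hb

theorem sol_cc (col : VE → Fin 3) (hcol : ∀ e, col (en e false) ≠ col (en e true))
    (a b : M VE EE) (ha : ¬ AM a) (hb : ¬ AM b) (h : sol a b) : cc en col a ≠ cc en col b := by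
  cases a <;> cases b <;> simp only [sol] at h
  · rename_i k l
    simp only [AM] at ha hb
    simp only [cc]
    revert k l
    decide
  · obtain ⟨rfl, rfl⟩ := h
    rename_i u i
    clear ha hb
    simp only [cc]
    generalize col u = c
    revert c i
    decide
  · obtain ⟨rfl, rfl, rfl, rfl⟩ := h
    rename_i e i
    clear ha hb
    simp only [cc, Bool.not_false, Bool.not_true, Bool.true_eq_false, and_false, or_false,
      and_true]
    have := hcol e
    generalize col (en e false) = c at this ⊢
    generalize col (en e true) = d at this ⊢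
    revert c d i
    decide

theorem dot_ok (col : VE → Fin 3) (d : D VE EE) :
    (NN en col (src en d) ∧ NN en col (tgt d)) ∨
      cc en col (src en d) = cc en col (tgt d) := by
  cases d with
  | ax u => 
    simp only [src, tgt, NN, cc]
    generalize col u = c
    revert c
    decide
  | xf u j => 
    simp only [src, tgt, NN, cc]
    generalize col u = c
    revert c j
    decide
  | fx u j =>
    simp only [src, tgt, NN, cc]
    generalize col u = c
    revert c j
    decide
  | xb u =>
    simp only [src, tgt, NN, cc]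
    generalize col u = c
    revert c
    decide
  | af u j => left; simp [src, tgt, NN]
  | fb u j => left; simp [src, tgt, NN]
  | az u i =>
    simp only [src, tgt, NN, cc]
    generalize col u = c
    revert c i
    decide
  | zg e b i =>
    simp only [src, tgt, NN, cc]
    generalize col (en e b) = c
    generalize col (en e (!b)) = c'
    revert c c' i b
    decide
  | gy e b i => right; rfl
  | yb e b i =>
    simp only [src, tgt, NN, cc]
    generalize col (en e b) = c
    generalize col (en e (!b)) = c'
    revert c c' i b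
    decide
  | ag e b i => left; simp [src, tgt, NN]
  | gb e b i => left; simp [src, tgt, NN]

set_option synthInstance.maxSize 4000 in
theorem base_key : ∀ k l m : Fin 7, (k = 0 ∨ k = 1 ∨ k = 2) →
    (((k : ℕ), (l : ℕ)) ∈ baseE ∨ ((l : ℕ), (k : ℕ)) ∈ baseE) →
    (((k : ℕ), (m : ℕ)) ∈ baseE ∨ ((m : ℕ), (k : ℕ)) ∈ baseE) →
    decide (l = 4 ∨ l = 6) ≠ decide (m = 4 ∨ m = 6) →
    (((l : ℕ), (m : ℕ)) ∈ baseE ∨ ((m : ℕ), (l : ℕ)) ∈ baseE) ∨
      ((l = 3 ∨ l = 4) ∧ (m = 3 ∨ m = 4)) := by
  unfold baseE
  decide

theorem probePerfect_of_col [Finite (M VE EE ⊕ D VE EE)]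
    (col : VE → Fin 3) (hcol : ∀ e, col (en e false) ≠ col (en e true)) :
    ProbePerfect (gr en) := by
  refine ⟨{p | Sum.elim (NN en col) (fun _ => False) p}, valid_of (gr en) _
    {p | Sum.elim AM (fun _ => True) p} (Sum.elim (cc en col) (fun _ => false)) ?_ ?_ ?_ ?_ ?_⟩
  · rintro (a | d) ha (b | d') hb h
    · rcases h with h | h
      · exact sol_NN col hcol a b ha hb h
      · exact sol_NN col hcol b a hb ha h
    · exact hb
    · exact ha
    · exact ha
  · rintro (a | d) ha hA
    · exact NN_not_AM col a ha hA
    · exact ha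
  · rintro (a | d) ha (b | d') hb h
    · rcases h with h | h
      · exact sol_AM a b ha hb h
      · exact sol_AM b a hb ha h
    · rcases h with rfl | rfl
      · cases d' <;> simp [src, AM] at ha
      · cases d' <;> simp [tgt, AM] at ha
    · rcases h with rfl | rfl
      · cases d <;> simp [src, AM] at hb
      · cases d <;> simp [tgt, AM] at hb
    · exact h
  · rintro (a | d) (b | d') ha hb h
    · rcases h with h | h
      · exact sol_cc col hcol a b ha hb h
      · exact (sol_cc col hcol b a hb ha h).symm
    · exact absurd trivial hb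
    · exact absurd trivial ha
    · exact absurd trivial ha
  · rintro (a | d) ha (s | d1) (t | d2) hs ht hc
    · cases a <;> simp only [Set.mem_ofPred_eq, Sum.elim_inl, AM] at ha
      rename_i k
      have hb : ∀ s : M VE EE, (gr en).Adj (.inl (.base k)) (.inl s) → ∃ l : Fin 7, s = .base l ∧
          (((k : ℕ), (l : ℕ)) ∈ baseE ∨ ((l : ℕ), (k : ℕ)) ∈ baseE) := by
        rintro (l | _ | _ | _ | _ | _) h
        · exact ⟨l, rfl, h⟩
        · rcases h with h | h <;> exact h.elim
        · rcases h with h | h <;> exact h.elim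
        · rcases h with h | h <;> exact h.elim
        · rcases h with h | h <;> exact h.elim
        · rcases h with h | h <;> exact h.elim
      obtain ⟨l, rfl, hl⟩ := hb s hs
      obtain ⟨m, rfl, hm⟩ := hb t ht
      simp only [Sum.elim_inl, cc] at hc
      exact base_key k l m ha hl hm hc
    · exfalso
      rcases ht with rfl | rfl
      · cases d2 <;> simp [src, AM] at ha
      · cases d2 <;> simp [tgt, AM] at ha
    · exfalso
      rcases hs with rfl | rfl
      · cases d1 <;> simp [src, AM] at ha
      · cases d1 <;> simp [tgt, AM] at ha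
    · exact absurd rfl hc
    · right
      have key := dot_ok (en := en) col d
      simp only [Sum.elim_inl] at hc
      rcases key with ⟨h1, h2⟩ | h
      · rcases hs with rfl | rfl <;> rcases ht with rfl | rfl
        · exact ⟨h1, h1⟩
        · exact ⟨h1, h2⟩
        · exact ⟨h2, h1⟩
        · exact ⟨h2, h2⟩
      · exfalso
        rcases hs with rfl | rfl <;> rcases ht with rfl | rfl
        · exact hc rfl
        · exact hc h
        · exact hc h.symm
        · exact hc rfl
    · exact absurd ht (adj_rr d d2)
    · exact absurd hs (adj_rr d d1)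
    · exact absurd hs (adj_rr d d1)

end Pool.Agent.H515R2.PP
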