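import Pool.Agent.H515R2.PP.Code

/-!
# Hardness
-/

namespace Pool.Agent.H515R2.PP

open Pool.Agent.NPC Pool.Agent.H622R2 Pool.Agent.H692R2

section

variable (E : List (ℕ × ℕ))

theorem mem_vl (u : ℕ) : u ∈ vl E ↔ ∃ e ∈ E, u = e.1 ∨ u = e.2 := by
  unfold vl
  rw [mem_ddup]
  simp

/-- The ends of an edge. -/
def en (e : Fin E.length) (b : Bool) : {u // u ∈ vl E} :=
  ⟨if b = true then E[e].2 else E[e].1, by
    rw [mem_vl]
    refine ⟨E[e], List.getElem_mem _, ?_⟩
    cases b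
    · left; rfl
    · right; rfl⟩

/-- Labels of main vertices. -/
def lab : M {u // u ∈ vl E} (Fin E.length) → Lab
  | .base k => (0, k, 0)
  | .x u i => (1, u.1, i)
  | .z u i => (2, u.1, i)
  | .f u j => (3, u.1, j)
  | .g e b i => (4, 2 * e + b.toNat, i)
  | .y e b i => (5, 2 * e + b.toNat, i)

theorem two_mul_add_inj {m n : ℕ} {a b : Bool} (h : 2 * m + a.toNat = 2 * n + b.toNat) :
    m = n ∧ a = b := by
  have ha := Bool.toNat_le a
  have hb := Bool.toNat_le b
  have h1 : m = n := by omega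
  have h2 : a.toNat = b.toNat := by omega
  refine ⟨h1, ?_⟩
  cases a <;> cases b <;> simp_all

theorem lab_inj : Function.Injective (lab E) := by
  intro a b h
  cases a <;> cases b <;> simp only [lab, Prod.mk.injEq, OfNat.zero_ne_ofNat,
    OfNat.ofNat_ne_zero, OfNat.ofNat_ne_one, OfNat.one_ne_ofNat,
    Nat.reduceEqDiff, zero_ne_one, one_ne_zero, false_and, true_and, and_true] at h
  · rw [Fin.val_inj] at h
    rw [h]
  · rw [Subtype.val_inj, Fin.val_inj] at h
    rw [h.1, h.2]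
  · rw [Subtype.val_inj, Fin.val_inj] at h
    rw [h.1, h.2]
  · rw [Subtype.val_inj, Fin.val_inj] at h
    rw [h.1, h.2]
  · have h1 := two_mul_add_inj h.1
    rw [Fin.val_inj] at h1
    rw [Fin.val_inj] at h
    rw [h1.1, h1.2, h.2]
  · have h1 := two_mul_add_inj h.1
    rw [Fin.val_inj] at h1
    rw [Fin.val_inj] at h
    rw [h1.1, h1.2, h.2]

theorem src_ne_tgt (d : D {u // u ∈ vl E} (Fin E.length)) : src (en E) d ≠ tgt d := by
  cases d <;> simp [src, tgt]

theorem src_tgt_inj (d d' : D {u // u ∈ vl E} (Fin E.length))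
    (h : src (en E) d = src (en E) d') (h' : tgt d = tgt d') : d = d' := by
  cases d <;> cases d' <;> simp_all [src, tgt]

/-- Labels. -/
def cL : M {u // u ∈ vl E} (Fin E.length) ⊕ D {u // u ∈ vl E} (Fin E.length) → Lam
  | .inl a => (lab E a, lab E a)
  | .inr d => (lab E (src (en E) d), lab E (tgt d))

theorem cL_inj : Function.Injective (cL E) := by
  rintro (a | d) (b | d') h
  · simp only [cL, Prod.mk.injEq, and_self] at h
    rw [lab_inj E h]
  · simp only [cL, Prod.mk.injEq] at h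
    exact absurd (lab_inj E (h.1.symm.trans h.2)) (src_ne_tgt E d')
  · simp only [cL, Prod.mk.injEq] at h
    exact absurd (lab_inj E (h.1.trans h.2.symm)) (src_ne_tgt E d)
  · simp only [cL, Prod.mk.injEq] at h
    rw [src_tgt_inj E d d' (lab_inj E h.1) (lab_inj E h.2)]

theorem solB_iff (a b : Lab) : solB a b = true ↔
    (a.1 = 0 ∧ b.1 = 0 ∧ (a.2.1, b.2.1) ∈ baseE) ∨ (a.1 = 1 ∧ b.1 = 2 ∧ a.2 = b.2) ∨
    (a.1 = 5 ∧ b.1 = 5 ∧ a.2.1 % 2 = 0 ∧ b.2.1 = a.2.1 + 1 ∧ a.2.2 = b.2.2) := by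
  unfold solB
  simp only [Bool.or_eq_true, Bool.and_eq_true, decide_eq_true_eq, and_assoc, or_assoc]

theorem solB_lab (a b : M {u // u ∈ vl E} (Fin E.length)) :
    solB (lab E a) (lab E b) = true ↔ sol a b := by
  rw [solB_iff]
  cases a <;> cases b <;> simp only [lab, sol, OfNat.zero_ne_ofNat,
    OfNat.ofNat_ne_zero, OfNat.ofNat_ne_one, OfNat.one_ne_ofNat,
    Nat.reduceEqDiff, zero_ne_one, one_ne_zero, false_and, true_and, and_false, or_false,
    false_or, Prod.mk.injEq]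
  · rw [Subtype.val_inj, Fin.val_inj]
  · rename_i e b i e' b' j
    constructor
    · rintro ⟨h1, h2, h3⟩
      have hb := Bool.toNat_le b
      have hb' := Bool.toNat_le b'
      have h4 : b.toNat = 0 := by omega
      have h5 : b'.toNat = 1 := by omega
      refine ⟨Fin.ext (by omega), ?_, ?_, Fin.ext h3⟩
      · cases b <;> simp_all
      · cases b' <;> simp_all
    · rintro ⟨rfl, rfl, rfl, rfl⟩
      simp

theorem adjB_cL (v w : M {u // u ∈ vl E} (Fin E.length) ⊕ D {u // u ∈ vl E} (Fin E.length)) :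
    adjB (cL E v) (cL E w) = true ↔ (gr (en E)).Adj v w := by
  have hinj : ∀ a b, lab E a = lab E b ↔ a = b := fun a b => (lab_inj E).eq_iff
  rcases v with a | d <;> rcases w with b | d'
  · simp only [adjB, cL, decide_true, cond_true, Bool.or_eq_true, solB_lab]
    rfl
  · simp only [adjB, cL, decide_true, cond_true, Bool.or_eq_true, decide_eq_true_eq, hinj,
      src_ne_tgt E d', decide_false, cond_false]
    rfl
  · simp only [adjB, cL, decide_true, cond_true, Bool.or_eq_true, decide_eq_true_eq, hinj,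
      src_ne_tgt E d, decide_false, cond_false]
    rfl
  · simp only [adjB, cL, hinj, src_ne_tgt E d, src_ne_tgt E d', decide_false, cond_false]
    constructor
    · intro h; exact absurd h (by decide)
    · intro h; exact h.elim

theorem half_add (r : ℕ) : 2 * (r / 2) + (decide (r % 2 = 1)).toNat = r := by
  rcases Nat.mod_two_eq_zero_or_one r with h | h
  · rw [h]
    simp only [zero_ne_one, decide_false, Bool.toNat_false]
    omega
  · rw [h]
    simp only [decide_true, Bool.toNat_true]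
    omega

theorem idx_lt (n e : ℕ) (b : Bool) (h : e < n) : 2 * e + b.toNat < 2 * n := by
  have := Bool.toNat_le b
  omega

theorem mem_mainL (p : Lab) : p ∈ mainL E ↔ ∃ a, lab E a = p := by
  unfold mainL
  simp only [List.mem_append, List.mem_map, List.mem_range, List.mem_flatMap, List.mem_cons,
    List.not_mem_nil, or_false]
  constructor
  · rintro (⟨k, hk, rfl⟩ | ⟨u, hu, rfl | rfl | rfl | rfl | rfl | rfl | rfl | rfl⟩ |
      ⟨r, hr, i, hi, rfl | rfl⟩)
    · exact ⟨.base ⟨k, hk⟩, rfl⟩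
    · exact ⟨.x ⟨u, hu⟩ 0, rfl⟩
    · exact ⟨.x ⟨u, hu⟩ 1, rfl⟩
    · exact ⟨.x ⟨u, hu⟩ 2, rfl⟩
    · exact ⟨.z ⟨u, hu⟩ 0, rfl⟩
    · exact ⟨.z ⟨u, hu⟩ 1, rfl⟩
    · exact ⟨.z ⟨u, hu⟩ 2, rfl⟩
    · exact ⟨.f ⟨u, hu⟩ 0, rfl⟩
    · exact ⟨.f ⟨u, hu⟩ 1, rfl⟩
    · refine ⟨.g ⟨r / 2, by omega⟩ (decide (r % 2 = 1)) ⟨i, hi⟩, ?_⟩
      simp only [lab, Prod.mk.injEq, true_and, and_true]
      exact half_add r
    · refine ⟨.y ⟨r / 2, by omega⟩ (decide (r % 2 = 1)) ⟨i, hi⟩, ?_⟩
      simp only [lab, Prod.mk.injEq, true_and, and_true]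
      exact half_add r
  · rintro ⟨a, rfl⟩
    cases a with
    | base k => exact Or.inl ⟨k, k.2, rfl⟩
    | x u i => exact Or.inr (Or.inl ⟨u.1, u.2, by fin_cases i <;> simp [lab]⟩)
    | z u i => exact Or.inr (Or.inl ⟨u.1, u.2, by fin_cases i <;> simp [lab]⟩)
    | f u j => exact Or.inr (Or.inl ⟨u.1, u.2, by fin_cases j <;> simp [lab]⟩)
    | g e b i => exact Or.inr (Or.inr ⟨2 * e + b.toNat, idx_lt _ _ _ e.2, i, i.2, Or.inl rfl⟩)
    | y e b i => exact Or.inr (Or.inr ⟨2 * e + b.toNat, idx_lt _ _ _ e.2, i, i.2, Or.inr rfl⟩)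

theorem endp_eq (r : ℕ) (hr : r < 2 * E.length) :
    endp E r = (en E ⟨r / 2, by omega⟩ (decide (r % 2 = 1))).1 := by
  unfold endp en
  have h : r / 2 < E.length := by omega
  rw [List.getD_eq_getElem?_getD, List.getElem?_eq_getElem h, Option.getD_some]
  rcases Nat.mod_two_eq_zero_or_one r with h1 | h1
  · simp [h1]
  · simp [h1]

theorem endp_eq' (e : Fin E.length) (b : Bool) :
    endp E (2 * e + b.toNat) = (en E e b).1 := by
  rw [endp_eq E _ (idx_lt _ _ _ e.2)]
  have hb := Bool.toNat_le b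
  have h1 : (⟨(2 * e + b.toNat) / 2, by omega⟩ : Fin E.length) = e := Fin.ext (by simp; omega)
  rw [h1]
  cases b
  · simp
  · simp

theorem mem_dotL (p : Lam) : p ∈ dotL E ↔ ∃ d, (lab E (src (en E) d), lab E (tgt d)) = p := by
  unfold dotL
  simp only [List.mem_append, List.mem_range, List.mem_flatMap, List.mem_cons,
    List.not_mem_nil, or_false]
  constructor
  · rintro (⟨u, hu, h⟩ | ⟨r, hr, i, hi, h⟩)
    · rcases h with rfl | rfl | rfl | rfl | rfl | rfl | rfl | rfl | rfl | rfl | rfl | rfl | rfl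
      · exact ⟨.ax ⟨u, hu⟩, rfl⟩
      · exact ⟨.xf ⟨u, hu⟩ 0, rfl⟩
      · exact ⟨.xf ⟨u, hu⟩ 1, rfl⟩
      · exact ⟨.fx ⟨u, hu⟩ 0, rfl⟩
      · exact ⟨.fx ⟨u, hu⟩ 1, rfl⟩
      · exact ⟨.xb ⟨u, hu⟩, rfl⟩
      · exact ⟨.af ⟨u, hu⟩ 0, rfl⟩
      · exact ⟨.af ⟨u, hu⟩ 1, rfl⟩
      · exact ⟨.fb ⟨u, hu⟩ 0, rfl⟩
      · exact ⟨.fb ⟨u, hu⟩ 1, rfl⟩
      · exact ⟨.az ⟨u, hu⟩ 0, rfl⟩
      · exact ⟨.az ⟨u, hu⟩ 1, rfl⟩
      · exact ⟨.az ⟨u, hu⟩ 2, rfl⟩
    · have hh := half_add r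
      have he := endp_eq E r hr
      rcases h with rfl | rfl | rfl | rfl | rfl
      · refine ⟨.zg ⟨r / 2, by omega⟩ (decide (r % 2 = 1)) ⟨i, hi⟩, ?_⟩
        simp only [src, tgt, lab, hh, he]
      · refine ⟨.gy ⟨r / 2, by omega⟩ (decide (r % 2 = 1)) ⟨i, hi⟩, ?_⟩
        simp only [src, tgt, lab, hh]
      · refine ⟨.yb ⟨r / 2, by omega⟩ (decide (r % 2 = 1)) ⟨i, hi⟩, ?_⟩
        simp only [src, tgt, lab, hh]
        rfl
      · refine ⟨.ag ⟨r / 2, by omega⟩ (decide (r % 2 = 1)) ⟨i, hi⟩, ?_⟩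
        simp only [src, tgt, lab, hh]
        rfl
      · refine ⟨.gb ⟨r / 2, by omega⟩ (decide (r % 2 = 1)) ⟨i, hi⟩, ?_⟩
        simp only [src, tgt, lab, hh]
        rfl
  · rintro ⟨d, rfl⟩
    cases d with
    | ax u => exact Or.inl ⟨u.1, u.2, by simp [src, tgt, lab]⟩
    | xf u j => exact Or.inl ⟨u.1, u.2, by fin_cases j <;> simp [src, tgt, lab]⟩
    | fx u j => exact Or.inl ⟨u.1, u.2, by fin_cases j <;> simp [src, tgt, lab]⟩
    | xb u => exact Or.inl ⟨u.1, u.2, by simp [src, tgt, lab]⟩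
    | af u j => exact Or.inl ⟨u.1, u.2, by fin_cases j <;> simp [src, tgt, lab]⟩
    | fb u j => exact Or.inl ⟨u.1, u.2, by fin_cases j <;> simp [src, tgt, lab]⟩
    | az u i => exact Or.inl ⟨u.1, u.2, by fin_cases i <;> simp [src, tgt, lab]⟩
    | zg e b i => 
      exact Or.inr ⟨2 * e + b.toNat, idx_lt _ _ _ e.2, i, i.2, Or.inl (by
        simp only [src, tgt, lab, endp_eq'])⟩
    | gy e b i => 
      exact Or.inr ⟨2 * e + b.toNat, idx_lt _ _ _ e.2, i, i.2, Or.inr (Or.inl rfl)⟩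
    | yb e b i => 
      exact Or.inr ⟨2 * e + b.toNat, idx_lt _ _ _ e.2, i, i.2, Or.inr (Or.inr (Or.inl rfl))⟩
    | ag e b i => 
      exact Or.inr ⟨2 * e + b.toNat, idx_lt _ _ _ e.2, i, i.2,
        Or.inr (Or.inr (Or.inr (Or.inl rfl)))⟩
    | gb e b i => 
      exact Or.inr ⟨2 * e + b.toNat, idx_lt _ _ _ e.2, i, i.2,
        Or.inr (Or.inr (Or.inr (Or.inr rfl)))⟩

theorem mem_vs (z : Lam) : z ∈ vs E ↔ ∃ v, cL E v = z := by
  unfold vs
  rw [mem_ddup, List.mem_append, mem_dotL, List.mem_map]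
  constructor
  · rintro (⟨a, ha, rfl⟩ | ⟨d, rfl⟩)
    · obtain ⟨m, rfl⟩ := (mem_mainL E a).1 ha
      exact ⟨.inl m, rfl⟩
    · exact ⟨.inr d, rfl⟩
  · rintro ⟨a | d, rfl⟩
    · exact Or.inl ⟨lab E a, (mem_mainL E _).2 ⟨a, rfl⟩, rfl⟩
    · exact Or.inr ⟨d, rfl⟩

theorem adjB_symm (p q : Lam) : adjB p q = adjB q p := by
  unfold adjB
  by_cases hp : p.1 = p.2 <;> by_cases hq : q.1 = q.2 <;>
    simp only [hp, hq, decide_true, decide_false, cond_true, cond_false, Bool.or_comm]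

theorem solB_irrefl (a : Lab) : solB a a = false := by
  rw [← Bool.not_eq_true, solB_iff]
  rintro (⟨_, _, h⟩ | ⟨h, h', _⟩ | ⟨_, _, _, h, _⟩)
  · simp only [baseE, List.mem_cons, Prod.mk.injEq, List.not_mem_nil, or_false] at h
    omega
  · omega
  · omega

theorem adjB_irrefl (p : Lam) : adjB p p = false := by
  unfold adjB
  by_cases hp : p.1 = p.2
  · simp [hp, solB_irrefl]
  · simp [hp]

/-- The graph produced by the reduction. -/
def outG : SimpleGraph (Fin (vs E).length) := R671.listGraph (vs E) adjB adjB_symm adjB_irrefl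

theorem exists_iso : Nonempty (outG E ≃g gr (en E)) := by
  obtain ⟨e, he⟩ := R671.exists_equiv (vs E) (ddup_nodup _) (cL E) (cL_inj E) (mem_vs E)
  refine ⟨⟨e, ?_⟩⟩
  intro i j
  rw [← adjB_cL, he, he]
  rfl

end

section Iso

variable {V W : Type*} {G : SimpleGraph V} {H : SimpleGraph W}

theorem clique_of_iso (e : G ≃g H) {n : ℕ} (h : ∃ s, G.IsNClique n s) :
    ∃ s, H.IsNClique n s := by
  obtain ⟨s, hs⟩ := h
  refine ⟨s.map e.toEquiv.toEmbedding, ?_, ?_⟩
  · intro a ha b hb hab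
    simp only [Finset.coe_map, Set.mem_image, Finset.mem_coe] at ha hb
    obtain ⟨a, ha, rfl⟩ := ha
    obtain ⟨b, hb, rfl⟩ := hb
    exact e.map_rel_iff.2 (hs.isClique ha hb (fun h => hab (by rw [h])))
  · rw [Finset.card_map]
    exact hs.card_eq

theorem cliqueNum_iso (e : G ≃g H) : G.cliqueNum = H.cliqueNum := by
  unfold SimpleGraph.cliqueNum
  congr 1
  ext n
  exact ⟨clique_of_iso e, clique_of_iso e.symm⟩

theorem chromaticNumber_iso (e : G ≃g H) : G.chromaticNumber = H.chromaticNumber :=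
  le_antisymm (SimpleGraph.chromaticNumber_mono_of_hom e.toHom)
    (SimpleGraph.chromaticNumber_mono_of_hom e.symm.toHom)

theorem Perfect.iso (e : G ≃g H) (h : Perfect G) : Perfect H := by
  intro s
  have e' : G.induce (e ⁻¹' s) ≃g H.induce s :=
    { toFun := fun x => ⟨e x.1, x.2⟩
      invFun := fun y => ⟨e.symm y.1, by simp⟩
      left_inv := fun x => Subtype.ext (by simp)
      right_inv := fun y => Subtype.ext (by simp)
      map_rel_iff' := fun {a b} => e.map_rel_iff }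
  rw [← chromaticNumber_iso e', ← cliqueNum_iso e']
  exact h _

theorem ProbePerfect.iso (e : G ≃g H) (h : ProbePerfect G) : ProbePerfect H := by
  obtain ⟨N, hN, G', hle, hE, hP⟩ := h
  refine ⟨e.symm ⁻¹' N, ?_, G'.comap e.symm, ?_, ?_, ?_⟩
  · intro u hu v hv h
    exact hN _ hu _ hv (e.symm.map_rel_iff.2 h)
  · intro u v h
    exact hle (e.symm.map_rel_iff.2 h)
  · intro u v h
    rcases hE _ _ h with h | h
    · exact Or.inl (e.symm.map_rel_iff.1 h)
    · exact Or.inr h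
  · refine hP.iso ⟨e.toEquiv, ?_⟩
    intro a b
    simp

end Iso

/-- Correctness of the reduction. -/
theorem out_correct (E : List (ℕ × ℕ)) : Col 3 E ↔ ProbePerfect (outG E) := by
  obtain ⟨e⟩ := exists_iso E
  have : Finite (M {u // u ∈ vl E} (Fin E.length) ⊕ D {u // u ∈ vl E} (Fin E.length)) :=
    Finite.of_equiv _ e.toEquiv
  have h1 : ProbePerfect (outG E) ↔ ProbePerfect (gr (en E)) := ⟨.iso e, .iso e.symm⟩
  rw [h1, correct]
  constructor
  · rintro ⟨c, hc⟩
    exact ⟨fun u => c u.1, fun e => hc E[e] (List.getElem_mem _)⟩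
  · rintro ⟨c, hc⟩
    classical
    refine ⟨fun n => if h : n ∈ vl E then c ⟨n, h⟩ else 0, fun p hp => ?_⟩
    obtain ⟨i, hi, rfl⟩ := List.getElem_of_mem hp
    have h1 : E[i].1 ∈ vl E := (mem_vl E _).2 ⟨E[i], hp, Or.inl rfl⟩
    have h2 : E[i].2 ∈ vl E := (mem_vl E _).2 ⟨E[i], hp, Or.inr rfl⟩
    simp only [dif_pos h1, dif_pos h2]
    exact hc ⟨i, hi⟩

theorem poly_listFin {α Λ : Type} [TEnc α] [TEnc Λ] {l : α → List Λ} {ad : Λ → Λ → Bool}
    {hs : ∀ a b, ad a b = ad b a} {hi : ∀ a, ad a a = false} (hl : Poly l)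
    (had : Poly (fun p : Λ × Λ => ad p.1 p.2)) :
    Poly (fun a => (⟨(l a).length, R671.listGraph (l a) ad hs hi⟩ : FinGraph)) := by
  have h1 : Poly (fun a => (l a).map (fun u => (l a).map (fun w => ad u w))) := by
    refine NPC.Poly.map (F := fun a u => (l a).map (fun w => ad u w)) hl ?_
    exact NPC.Poly.map (l := fun p : α × Λ => l p.1) (F := fun p w => ad p.2 w)
      (hl.comp (NPC.Poly.fst NPC.Poly.id))
      (had.comp (Poly.pair (Poly.snd (Poly.fst Poly.id)) (Poly.snd Poly.id)))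
  have h2 : Poly (fun a =>
      (⟨(l a).length, R671.listGraph (l a) ad hs hi⟩ : FinGraph).matrix) := by
    refine h1.congr fun a => ?_
    rw [FinGraph.matrix_eq (l a).length
      (fun i j => if h : i < (l a).length ∧ j < (l a).length then
        ad ((l a)[i]'h.1) ((l a)[j]'h.2) else false)]
    · apply List.ext_getElem
      · simp
      · intro i h1 h2
        simp only [List.getElem_map, List.getElem_range]
        apply List.ext_getElem
        · simp
        · intro j h3 h4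
          simp only [List.length_map, List.length_range] at h1 h2 h3 h4
          simp [h1, h3]
    · intro i j
      simp [R671.listGraph]
  exact h2

theorem poly_adjB2 : Poly (fun p : Lam × Lam => adjB p.1 p.2) :=
  poly_adjB (by fun_prop) (by fun_prop)

theorem poly_vs0 : Poly vs := poly_vs Poly.id

theorem poly_out : Poly (fun E : List (ℕ × ℕ) => (⟨(vs E).length, outG E⟩ : FinGraph)) :=
  poly_listFin poly_vs0 poly_adjB2

/-- The reduction. -/
noncomputable def outF (E : List (ℕ × ℕ)) : FinGraph := ⟨(vs E).length, outG E⟩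

theorem poly_outF : Poly outF := poly_out

end Pool.Agent.H515R2.PP
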