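import Pool.Agent.H515R2.PP.Graph

/-!
# Soundness of the reduction
-/

namespace Pool.Agent.H515R2.PP

variable {VE EE : Type} {en : EE → Bool → VE}

section

variable {V : Type*} {G G' : SimpleGraph V} {N : Set V}

/-- an induced 5-cycle of `G` must get a chord -/
theorem c5 (hle : G ≤ G') (hE : ∀ u v, G'.Adj u v → G.Adj u v ∨ (u ∈ N ∧ v ∈ N))
    (hP : Perfect G') (v0 v1 v2 v3 v4 : V) (h01 : G.Adj v0 v1) (h12 : G.Adj v1 v2)
    (h23 : G.Adj v2 v3) (h34 : G.Adj v3 v4) (h04 : G.Adj v0 v4)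
    (h02 : ¬ G.Adj v0 v2) (h13 : ¬ G.Adj v1 v3) (h24 : ¬ G.Adj v2 v4) (h03 : ¬ G.Adj v0 v3)
    (h14 : ¬ G.Adj v1 v4) :
    (G'.Adj v0 v2 ∧ v0 ∈ N ∧ v2 ∈ N) ∨ (G'.Adj v1 v3 ∧ v1 ∈ N ∧ v3 ∈ N) ∨
    (G'.Adj v2 v4 ∧ v2 ∈ N ∧ v4 ∈ N) ∨ (G'.Adj v0 v3 ∧ v0 ∈ N ∧ v3 ∈ N) ∨
    (G'.Adj v1 v4 ∧ v1 ∈ N ∧ v4 ∈ N) := by
  by_contra hcon
  simp only [not_or] at hcon
  obtain ⟨n02, n13, n24, n03, n14⟩ := hcon
  have key : ∀ a b, ¬ G.Adj a b → ¬ (G'.Adj a b ∧ a ∈ N ∧ b ∈ N) → ¬ G'.Adj a b := by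
    intro a b h1 h2 h3
    rcases hE a b h3 with h | h
    · exact h1 h
    · exact h2 ⟨h3, h⟩
  have k02 := key _ _ h02 n02
  have k13 := key _ _ h13 n13
  have k24 := key _ _ h24 n24
  have k03 := key _ _ h03 n03
  have k14 := key _ _ h14 n14
  refine no_odd_hole G' hP 5 (by norm_num) (by norm_num)
    (fun n => match n with | 0 => v0 | 1 => v1 | 2 => v2 | 3 => v3 | _ => v4) ?_
  intro i j hij hj
  have hi : i < 5 := by omega
  interval_cases i <;> interval_cases j <;> first | omega | skip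
  all_goals simp only [Nat.reduceAdd, Nat.reduceSub, Nat.reduceEqDiff, true_and, false_and,
    and_false, or_false, or_true, iff_true, iff_false, OfNat.ofNat_ne_zero, one_ne_zero,
    false_or]
  all_goals first
    | exact hle h01 | exact hle h12 | exact hle h23 | exact hle h34 | exact hle h04
    | assumption

end

section

variable {G' : SimpleGraph (M VE EE ⊕ D VE EE)} {N : Set (M VE EE ⊕ D VE EE)}

/-- The path lemma for paths of dotted edges. -/
theorem dotted_path (hle : gr en ≤ G')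
    (hI : ∀ u ∈ N, ∀ v ∈ N, ¬ (gr en).Adj u v)
    (hE : ∀ u v, G'.Adj u v → (gr en).Adj u v ∨ (u ∈ N ∧ v ∈ N)) (hP : Perfect G')
    (k : ℕ) (hk : 1 ≤ k) (w : ℕ → M VE EE) (d : ℕ → D VE EE)
    (hinj : ∀ i j, i ≤ 2 * k → j ≤ 2 * k → w i = w j → i = j)
    (hs : ∀ i < 2 * k, src en (d i) = w i) (ht : ∀ i < 2 * k, tgt (d i) = w (i + 1))
    (hsol : ∀ i j, i ≤ 2 * k → j ≤ 2 * k → ¬ sol (w i) (w j))
    (hev : ∀ j, j ≤ k → Sum.inl (w (2 * j)) ∈ N)
    (hodd : ∀ j, j < k → Sum.inl (w (2 * j + 1)) ∉ N)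
    (hend : G'.Adj (Sum.inl (w 0)) (Sum.inl (w (2 * k)))) : False := by
  have hdN : ∀ i < 2 * k, Sum.inr (d i) ∉ N := by
    intro i hi hN
    rcases Nat.even_or_odd' i with ⟨j, rfl | rfl⟩
    · refine hI _ hN _ (hev j (by omega)) ?_
      rw [adj_rl]
      exact Or.inl (hs _ hi).symm
    · have h1 : 2 * j + 1 + 1 = 2 * (j + 1) := by ring
      refine hI _ hN _ (hev (j + 1) (by omega)) ?_
      rw [adj_rl]
      right
      rw [ht _ hi, h1]
  refine path_lemma G' hP k (fun n => if n % 2 = 0 then Sum.inl (w (n / 2)) else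
    Sum.inr (d (n / 2))) hk ?_ ?_ ?_ ?_
  · intro i j hi hj h
    rcases Nat.mod_two_eq_zero_or_one i with h1 | h1 <;>
      rcases Nat.mod_two_eq_zero_or_one j with h2 | h2
    · simp only [h1, h2, if_true, Sum.inl.injEq] at h
      have := hinj _ _ (by omega) (by omega) h
      omega
    · simp [h1, h2] at h
    · simp [h1, h2] at h
    · simp only [h1, h2, one_ne_zero, if_false, Sum.inr.injEq] at h
      have h3 : w (i / 2) = w (j / 2) := by
        rw [← hs (i / 2) (by omega), ← hs (j / 2) (by omega), h]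
      have := hinj _ _ (by omega) (by omega) h3
      omega
  · intro i hi
    apply hle
    rcases Nat.mod_two_eq_zero_or_one i with h1 | h1
    · have h2 : (i + 1) % 2 = 1 := by omega
      have h3 : (i + 1) / 2 = i / 2 := by omega
      simp only [h1, h2, if_true, one_ne_zero, if_false, h3]
      rw [adj_lr]
      exact Or.inl (hs _ (by omega)).symm
    · have h2 : (i + 1) % 2 = 0 := by omega
      have h3 : (i + 1) / 2 = i / 2 + 1 := by omega
      simp only [h1, h2, if_true, one_ne_zero, if_false, h3]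
      rw [adj_rl]
      exact Or.inr (ht _ (by omega)).symm
  · intro i j hij hj h
    have hNmod : ∀ n, n ≤ 4 * k → (if n % 2 = 0 then Sum.inl (w (n / 2)) else
        Sum.inr (d (n / 2))) ∈ N → n % 4 = 0 := by
      intro n hn hN
      rcases Nat.mod_two_eq_zero_or_one n with h1 | h1
      · rw [if_pos h1] at hN
        by_contra hcon
        have h2 : n / 2 = 2 * (n / 4) + 1 := by omega
        rw [h2] at hN
        exact hodd (n / 4) (by omega) hN
      · rw [if_neg (by omega)] at hN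
        exact absurd hN (hdN _ (by omega))
    rcases hE _ _ h with h | ⟨h1, h2⟩
    · exfalso
      rcases Nat.mod_two_eq_zero_or_one i with h1 | h1 <;>
        rcases Nat.mod_two_eq_zero_or_one j with h2 | h2
      · rw [if_pos h1, if_pos h2, adj_ll] at h
        rcases h with h | h
        · exact hsol _ _ (by omega) (by omega) h
        · exact hsol _ _ (by omega) (by omega) h
      · rw [if_pos h1, if_neg (by omega), adj_lr, hs _ (by omega), ht _ (by omega)] at h
        rcases h with h | h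
        · have := hinj _ _ (by omega) (by omega) h
          omega
        · have := hinj _ _ (by omega) (by omega) h
          omega
      · rw [if_neg (by omega), if_pos h2, adj_rl, hs _ (by omega), ht _ (by omega)] at h
        rcases h with h | h
        · have := hinj _ _ (by omega) (by omega) h
          omega
        · have := hinj _ _ (by omega) (by omega) h
          omega
      · rw [if_neg (by omega), if_neg (by omega)] at h
        exact adj_rr _ _ h
    · exact ⟨hNmod i (by omega) h1, hNmod j hj h2⟩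
  · have h1 : 4 * k % 2 = 0 := by omega
    have h2 : 4 * k / 2 = 2 * k := by omega
    simpa [h1, h2] using hend

theorem base_adj (k l : Fin 7) : (gr en).Adj (.inl (.base k)) (.inl (.base l)) ↔
    (((k : ℕ), (l : ℕ)) ∈ baseE ∨ ((l : ℕ), (k : ℕ)) ∈ baseE) := Iff.rfl

/-- The two special base vertices are non-probes, and they are joined. -/
theorem base_forced (hle : gr en ≤ G')
    (hI : ∀ u ∈ N, ∀ v ∈ N, ¬ (gr en).Adj u v)
    (hE : ∀ u v, G'.Adj u v → (gr en).Adj u v ∨ (u ∈ N ∧ v ∈ N)) (hP : Perfect G') :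
    Sum.inl (M.base 3) ∈ N ∧ Sum.inl (M.base 4) ∈ N ∧
      G'.Adj (Sum.inl (M.base 3)) (Sum.inl (M.base 4)) := by
  have hb : ∀ k l : Fin 7, (((k : ℕ), (l : ℕ)) ∈ baseE ∨ ((l : ℕ), (k : ℕ)) ∈ baseE) →
      (gr en).Adj (.inl (.base k)) (.inl (.base l)) := fun k l h => h
  have hb' : ∀ k l : Fin 7, ¬ (((k : ℕ), (l : ℕ)) ∈ baseE ∨ ((l : ℕ), (k : ℕ)) ∈ baseE) →
      ¬ (gr en).Adj (.inl (.base k)) (.inl (.base l)) := fun k l h => h
  have hn : ∀ k l : Fin 7, (((k : ℕ), (l : ℕ)) ∈ baseE ∨ ((l : ℕ), (k : ℕ)) ∈ baseE) →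
      Sum.inl (M.base k) ∈ N → Sum.inl (M.base l) ∈ N → False :=
    fun k l h h1 h2 => hI _ h1 _ h2 h
  have q1 := c5 hle hE hP (.inl (.base 0)) (.inl (.base 3)) (.inl (.base 2)) (.inl (.base 5))
    (.inl (.base 4)) (hb _ _ (by decide)) (hb _ _ (by decide)) (hb _ _ (by decide))
    (hb _ _ (by decide)) (hb _ _ (by decide)) (hb' _ _ (by decide)) (hb' _ _ (by decide))
    (hb' _ _ (by decide)) (hb' _ _ (by decide)) (hb' _ _ (by decide))
  have q2 := c5 hle hE hP (.inl (.base 0)) (.inl (.base 3)) (.inl (.base 6)) (.inl (.base 1))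
    (.inl (.base 4)) (hb _ _ (by decide)) (hb _ _ (by decide)) (hb _ _ (by decide))
    (hb _ _ (by decide)) (hb _ _ (by decide)) (hb' _ _ (by decide)) (hb' _ _ (by decide))
    (hb' _ _ (by decide)) (hb' _ _ (by decide)) (hb' _ _ (by decide))
  have q3 := c5 hle hE hP (.inl (.base 0)) (.inl (.base 3)) (.inl (.base 6)) (.inl (.base 5))
    (.inl (.base 4)) (hb _ _ (by decide)) (hb _ _ (by decide)) (hb _ _ (by decide))
    (hb _ _ (by decide)) (hb _ _ (by decide)) (hb' _ _ (by decide)) (hb' _ _ (by decide))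
    (hb' _ _ (by decide)) (hb' _ _ (by decide)) (hb' _ _ (by decide))
  have n26 := hn 2 6 (by decide)
  have n16 := hn 1 6 (by decide)
  have n56 := hn 5 6 (by decide)
  have n36 := hn 3 6 (by decide)
  have n25 := hn 2 5 (by decide)
  have n15 := hn 1 5 (by decide)
  have n45 := hn 4 5 (by decide)
  have n03 := hn 0 3 (by decide)
  have n04 := hn 0 4 (by decide)
  have n23 := hn 2 3 (by decide)
  have n14 := hn 1 4 (by decide)
  have step : Sum.inl (M.base 3) ∈ N ∧ Sum.inl (M.base 4) ∈ N := by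
    rcases q3 with ⟨_, a, b⟩ | ⟨_, a, b⟩ | ⟨_, a, b⟩ | ⟨_, a, b⟩ | ⟨_, a, b⟩
    · -- 0, 6
      exfalso
      rcases q1 with ⟨_, c, d⟩ | ⟨_, c, d⟩ | ⟨_, c, d⟩ | ⟨_, c, d⟩ | ⟨_, c, d⟩
      · exact n26 d b
      · exact n36 c b
      · exact n26 c b
      · exact n56 d b
      · exact n36 c b
    · -- 3, 5
      exfalso
      rcases q2 with ⟨_, c, d⟩ | ⟨_, c, d⟩ | ⟨_, c, d⟩ | ⟨_, c, d⟩ | ⟨_, c, d⟩
      · exact n03 c a
      · exact n15 d b
      · exact n36 a c
      · exact n03 c a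
      · exact n45 d b
    · -- 6, 4
      exfalso
      rcases q1 with ⟨_, c, d⟩ | ⟨_, c, d⟩ | ⟨_, c, d⟩ | ⟨_, c, d⟩ | ⟨_, c, d⟩
      · exact n26 d a
      · exact n36 c a
      · exact n26 c a
      · exact n56 d a
      · exact n36 c a
    · -- 0, 5
      exfalso
      rcases q2 with ⟨_, c, d⟩ | ⟨_, c, d⟩ | ⟨_, c, d⟩ | ⟨_, c, d⟩ | ⟨_, c, d⟩
      · exact n56 b d
      · exact n03 a c
      · exact n56 b c
      · exact n15 d b
      · exact n45 d b
    · exact ⟨a, b⟩
  obtain ⟨a, b⟩ := step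
  refine ⟨a, b, ?_⟩
  rcases q1 with ⟨_, c, d⟩ | ⟨_, c, d⟩ | ⟨_, c, d⟩ | ⟨_, c, d⟩ | ⟨h, c, d⟩
  · exact (n03 c a).elim
  · exact (n45 b d).elim
  · exact (n23 c a).elim
  · exact (n03 c a).elim
  · exact h

/-- A vertex `m` joined by dotted edges to the two special vertices is a non-probe. -/
theorem forced_of (hle : gr en ≤ G')
    (hI : ∀ u ∈ N, ∀ v ∈ N, ¬ (gr en).Adj u v)
    (hE : ∀ u v, G'.Adj u v → (gr en).Adj u v ∨ (u ∈ N ∧ v ∈ N)) (hP : Perfect G')
    (m : M VE EE) (d0 d1 : D VE EE) (h0 : src en d0 = .base 3) (h0' : tgt d0 = m)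
    (h1 : src en d1 = m) (h1' : tgt d1 = .base 4)
    (hm : ∀ k, m ≠ .base k) (hs : ∀ k, ¬ sol (.base k) m ∧ ¬ sol m (.base k)) :
    Sum.inl m ∈ N := by
  obtain ⟨a, b, ab⟩ := base_forced hle hI hE hP
  by_contra hcon
  have hsm := sol_irrefl m
  have hs3 := hs 3
  have hs4 := hs 4
  refine dotted_path hle hI hE hP 1 le_rfl
    (fun n => match n with | 0 => .base 3 | 1 => m | _ => .base 4)
    (fun n => match n with | 0 => d0 | _ => d1) ?_ ?_ ?_ ?_ ?_ ?_ ?_
  · intro i j hi hj h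
    interval_cases i <;> interval_cases j <;> first
      | rfl
      | (exfalso; simp only [M.base.injEq] at h; revert h; decide)
      | exact absurd h (hm _)
      | exact absurd h.symm (hm _)
  · intro i hi
    interval_cases i
    · exact h0
    · exact h1
  · intro i hi
    interval_cases i
    · exact h0'
    · exact h1'
  · intro i j hi hj
    interval_cases i <;> interval_cases j <;> first
      | exact hs3.1
      | exact hs3.2
      | exact hs4.1
      | exact hs4.2
      | exact hsm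
      | (simp only [sol]; decide)
  · intro j hj
    interval_cases j
    · exact a
    · exact b
  · intro j hj
    interval_cases j
    exact hcon
  · exact ab

theorem f_forced (hle : gr en ≤ G')
    (hI : ∀ u ∈ N, ∀ v ∈ N, ¬ (gr en).Adj u v)
    (hE : ∀ u v, G'.Adj u v → (gr en).Adj u v ∨ (u ∈ N ∧ v ∈ N)) (hP : Perfect G')
    (u : VE) (j : Fin 2) : Sum.inl (M.f u j) ∈ N :=
  forced_of hle hI hE hP _ (.af u j) (.fb u j) rfl rfl rfl rfl (by simp)
    (fun k => ⟨by simp [sol], by simp [sol]⟩)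

theorem g_forced (hle : gr en ≤ G')
    (hI : ∀ u ∈ N, ∀ v ∈ N, ¬ (gr en).Adj u v)
    (hE : ∀ u v, G'.Adj u v → (gr en).Adj u v ∨ (u ∈ N ∧ v ∈ N)) (hP : Perfect G')
    (e : EE) (b : Bool) (i : Fin 3) : Sum.inl (M.g e b i) ∈ N :=
  forced_of hle hI hE hP _ (.ag e b i) (.gb e b i) rfl rfl rfl rfl (by simp)
    (fun k => ⟨by simp [sol], by simp [sol]⟩)

/-- Every vertex of the given graph gets a colour. -/
theorem clause (hle : gr en ≤ G')
    (hI : ∀ u ∈ N, ∀ v ∈ N, ¬ (gr en).Adj u v)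
    (hE : ∀ u v, G'.Adj u v → (gr en).Adj u v ∨ (u ∈ N ∧ v ∈ N)) (hP : Perfect G')
    (u : VE) : ∃ i, Sum.inl (M.x u i) ∈ N := by
  obtain ⟨a, b, ab⟩ := base_forced hle hI hE hP
  have hf := f_forced hle hI hE hP u
  by_contra hcon
  push Not at hcon
  refine dotted_path hle hI hE hP 3 (by norm_num)
    (fun n => match n with
      | 0 => .base 3 | 1 => .x u 0 | 2 => .f u 0 | 3 => .x u 1 | 4 => .f u 1 | 5 => .x u 2
      | _ => .base 4)
    (fun n => match n with
      | 0 => .ax u | 1 => .xf u 0 | 2 => .fx u 0 | 3 => .xf u 1 | 4 => .fx u 1 | _ => .xb u)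
    ?_ ?_ ?_ ?_ ?_ ?_ ?_
  · intro i j hi hj h
    interval_cases i <;> interval_cases j <;> first
      | rfl
      | (exfalso; revert h; simp)
  · intro i hi
    interval_cases i <;> rfl
  · intro i hi
    interval_cases i <;> rfl
  · intro i j hi hj
    interval_cases i <;> interval_cases j <;> simp [sol, baseE]
  · intro j hj
    interval_cases j
    · exact a
    · exact hf 0
    · exact hf 1
    · exact b
  · intro j hj
    interval_cases j
    · exact hcon 0
    · exact hcon 1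
    · exact hcon 2
  · exact ab

/-- If the vertex `z` is a probe then so is the corresponding edge vertex a non-probe. -/
theorem link (hle : gr en ≤ G')
    (hI : ∀ u ∈ N, ∀ v ∈ N, ¬ (gr en).Adj u v)
    (hE : ∀ u v, G'.Adj u v → (gr en).Adj u v ∨ (u ∈ N ∧ v ∈ N)) (hP : Perfect G')
    (e : EE) (b : Bool) (i : Fin 3) (hz : Sum.inl (M.z (en e b) i) ∉ N) :
    Sum.inl (M.y e b i) ∈ N := by
  obtain ⟨ha, hb, ab⟩ := base_forced hle hI hE hP
  have hg := g_forced hle hI hE hP e b i
  by_contra hcon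
  refine dotted_path hle hI hE hP 2 (by norm_num)
    (fun n => match n with
      | 0 => .base 3 | 1 => .z (en e b) i | 2 => .g e b i | 3 => .y e b i | _ => .base 4)
    (fun n => match n with
      | 0 => .az (en e b) i | 1 => .zg e b i | 2 => .gy e b i | _ => .yb e b i)
    ?_ ?_ ?_ ?_ ?_ ?_ ?_
  · intro i j hi hj h
    interval_cases i <;> interval_cases j <;> first
      | rfl
      | (exfalso; revert h; simp)
  · intro i hi
    interval_cases i <;> rfl
  · intro i hi
    interval_cases i <;> rfl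
  · intro i j hi hj
    interval_cases i <;> interval_cases j <;> simp [sol, baseE]
  · intro j hj
    interval_cases j
    · exact ha
    · exact hg
    · exact hb
  · intro j hj
    interval_cases j
    · exact hz
    · exact hcon
  · exact ab

/-- Soundness. -/
theorem col_of_probePerfect (h : ProbePerfect (gr en)) :
    ∃ col : VE → Fin 3, ∀ e, col (en e false) ≠ col (en e true) := by
  obtain ⟨N, hI, G', hle, hE, hP⟩ := h
  choose col hcol using clause hle hI hE hP
  refine ⟨col, fun e he => ?_⟩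
  have key : ∀ b, Sum.inl (M.y e b (col (en e b))) ∈ N := by
    intro b
    apply link hle hI hE hP
    intro hz
    exact hI _ (hcol (en e b)) _ hz ((adj_ll _ _).2 (Or.inl ⟨rfl, rfl⟩))
  have k1 := key false
  have k2 := key true
  rw [he] at k1
  exact hI _ k1 _ k2 ((adj_ll _ _).2 (Or.inl ⟨rfl, rfl, rfl, rfl⟩))

theorem correct [Finite (M VE EE ⊕ D VE EE)] : ProbePerfect (gr en) ↔
    ∃ col : VE → Fin 3, ∀ e, col (en e false) ≠ col (en e true) :=
  ⟨col_of_probePerfect, fun ⟨col, h⟩ => probePerfect_of_col col h⟩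

end

end Pool.Agent.H515R2.PP
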